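import Pool.Agent.D0H61.AB.Stm

/-!
# From local estimates to almost every coefficient (density theorem)
-/

set_option autoImplicit false

namespace Pool.Agent.D0H74.AB

open Pool.Agent.D0H61.AB Filter Topology MeasureTheory

/-- the `α` with a good pair `(b, c)`, `b ≥ M` -/
def LM (c₀ s : ℝ) (M : ℕ) : Set ℝ := {α : ℝ | ∃ b c : ℕ, M ≤ b ∧ Good c₀ s α b c}

theorem meas_LM (c₀ s : ℝ) (M : ℕ) : MeasurableSet (LM c₀ s M) := by
  have h : LM c₀ s M = ⋃ b : ℕ, ⋃ c : ℕ, {α : ℝ | M ≤ b ∧ Good c₀ s α b c} := by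
    ext α
    simp only [LM, Set.mem_setOf_eq, Set.mem_iUnion]
  rw [h]
  refine MeasurableSet.iUnion fun b => MeasurableSet.iUnion fun c => ?_
  by_cases hP : M ≤ b ∧ 0 < b ∧ 0 < c ∧ Nat.Coprime b c ∧
      c₀ * V c ≤ Real.log ((c : ℝ) / (rad (b * c) : ℝ))
  · have h2 : {α : ℝ | M ≤ b ∧ Good c₀ s α b c} = {α : ℝ | |α * b + s - c| ≤ 1} := by
      ext α
      simp only [Set.mem_setOf_eq, Good]
      tauto
    rw [h2]
    exact (isClosed_le (by fun_prop) continuous_const).measurableSet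
  · have h2 : {α : ℝ | M ≤ b ∧ Good c₀ s α b c} = ∅ := by
      ext α
      simp only [Set.mem_setOf_eq, Good, Set.mem_empty_iff_false, iff_false]
      tauto
    rw [h2]
    exact MeasurableSet.empty

/-- **Module 15 LOW.** -/
theorem t_LOW : S_LOC → S_LOW := by
  rintro ⟨c₀, C₁, hc₀, hC₁, hloc⟩
  refine ⟨c₀, hc₀, fun s => ?_⟩
  have hAm : MeasurableSet (⋂ M : ℕ, LM c₀ s M) := MeasurableSet.iInter fun M => meas_LM c₀ s M
  have hanti : Antitone (LM c₀ s) := by
    intro M N hMN α hα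
    obtain ⟨b, c, hb, hg⟩ := hα
    exact ⟨b, c, hMN.trans hb, hg⟩
  have hlow : ∀ x y : ℝ, 0 < x → x < y → y ≤ x + 1 →
      ENNReal.ofReal ((y - x) / C₁) ≤ volume (Set.Icc x y ∩ ⋂ M : ℕ, LM c₀ s M) := by
    intro x y hx hxy hy
    rw [Set.inter_iInter]
    have ht : Tendsto (fun M => volume (Set.Icc x y ∩ LM c₀ s M)) atTop
        (𝓝 (volume (⋂ M, Set.Icc x y ∩ LM c₀ s M))) := by
      refine tendsto_measure_iInter_atTop
        (fun M => (measurableSet_Icc.inter (meas_LM c₀ s M)).nullMeasurableSet) ?_ ⟨0, ?_⟩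
      · intro M N hMN
        exact Set.inter_subset_inter_right _ (hanti hMN)
      · refine ne_top_of_le_ne_top ?_ (measure_mono Set.inter_subset_left)
        rw [Real.volume_Icc]
        exact ENNReal.ofReal_ne_top
    exact ge_of_tendsto' ht (fun M => hloc s x y M hx hxy hy)
  have hd := Besicovitch.ae_tendsto_measure_inter_div_of_measurableSet (volume : Measure ℝ) hAm
  rw [ae_restrict_iff' measurableSet_Ioi]
  filter_upwards [hd] with α hα hpos
  have hpos : 0 < α := hpos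
  have hin : α ∈ ⋂ M : ℕ, LM c₀ s M := by
    by_contra hn
    rw [Set.indicator_of_notMem hn] at hα
    have h1 : ∀ᶠ r in 𝓝[>] (0 : ℝ), ENNReal.ofReal (1 / C₁) ≤
        volume ((⋂ M : ℕ, LM c₀ s M) ∩ Metric.closedBall α r) /
          volume (Metric.closedBall α r) := by
      have h2 : Set.Ioo (0 : ℝ) (min (α / 2) (1 / 2)) ∈ 𝓝[>] (0 : ℝ) :=
        Ioo_mem_nhdsGT (by positivity)
      filter_upwards [h2] with r hr
      obtain ⟨hr0, hr1⟩ := hr
      have hr2 : r < α / 2 := lt_of_lt_of_le hr1 (min_le_left _ _)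
      have hr3 : r < 1 / 2 := lt_of_lt_of_le hr1 (min_le_right _ _)
      have h3 := hlow (α - r) (α + r) (by linarith) (by linarith) (by linarith)
      rw [Real.closedBall_eq_Icc, Set.inter_comm, Real.volume_Icc,
        ENNReal.le_div_iff_mul_le (Or.inl ?_) (Or.inl ENNReal.ofReal_ne_top),
        ← ENNReal.ofReal_mul (by positivity)]
      · refine le_trans (le_of_eq ?_) h3
        congr 1
        ring
      · rw [Ne, ENNReal.ofReal_eq_zero, not_le]
        linarith
    have h4 := ge_of_tendsto hα h1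
    simp only [nonpos_iff_eq_zero, ENNReal.ofReal_eq_zero] at h4
    have : 0 < 1 / C₁ := by positivity
    linarith
  intro hfin
  obtain ⟨K, hK⟩ := (hfin.image Prod.fst).bddAbove
  obtain ⟨b, c, hb, hg⟩ := Set.mem_iInter.1 hin (K + 1)
  have h5 : b ≤ K := hK ⟨(b, c), hg, rfl⟩
  omega

end Pool.Agent.D0H74.AB
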